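import Mathlib

/-!
# Powers of the augmentation ideal of a group ring
-/

set_option autoImplicit false
set_option linter.unusedSectionVars false

namespace Pool.Agent.Q5.MT

section
variable (R : Type) [CommRing R] (G : Type) [CommGroup G]

/-- The augmentation `R[G] → R`, `∑ c_g g ↦ ∑ c_g`. -/
noncomputable def aug : MonoidAlgebra R G →ₐ[R] R := MonoidAlgebra.lift R R G (1 : G →* R)

/-- The augmentation ideal `I` of `R[G]`, the kernel of the augmentation. -/
noncomputable def augIdeal : Ideal (MonoidAlgebra R G) := RingHom.ker (aug R G)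

end

section
variable {R : Type} [CommRing R] {G H K : Type} [CommGroup G] [CommGroup H] [CommGroup K]

/-- The ring homomorphism `R[G] → R[H]` given by a homomorphism of groups `G → H`. -/
noncomputable def push (f : G →* H) : MonoidAlgebra R G →+* MonoidAlgebra R H :=
  MonoidAlgebra.mapDomainRingHom R f

theorem aug_of (g : G) : aug R G (MonoidAlgebra.of R G g) = 1 := by
  simp [aug]

theorem mem_aug {x : MonoidAlgebra R G} : x ∈ augIdeal R G ↔ aug R G x = 0 := Iff.rfl

theorem push_of (f : G →* H) (g : G) :
    push f (MonoidAlgebra.of R G g) = MonoidAlgebra.of R H (f g) := by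
  simp [push, MonoidAlgebra.of]

theorem push_smul (f : G →* H) (c : R) (x : MonoidAlgebra R G) : push f (c • x) = c • push f x := by
  have h := map_smul (MonoidAlgebra.mapDomainAlgHom R R f) c x
  exact h

theorem aug_push (f : G →* H) (x : MonoidAlgebra R G) : aug R H (push f x) = aug R G x := by
  induction x using MonoidAlgebra.induction_on with
  | of g => rw [push_of, aug_of, aug_of]
  | add x y hx hy => rw [map_add, map_add, map_add, hx, hy]
  | smul c x hx => rw [push_smul, map_smul, map_smul, hx]

theorem push_push (f : H →* K) (g : G →* H) (x : MonoidAlgebra R G) :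
    push f (push g x) = push (f.comp g) x := by
  induction x using MonoidAlgebra.induction_on with
  | of g => rw [push_of, push_of, push_of]; rfl
  | add x y hx hy => simp only [map_add, hx, hy]
  | smul c x hx => simp only [push_smul, hx]

theorem push_id (x : MonoidAlgebra R G) : push (MonoidHom.id G) x = x := by
  induction x using MonoidAlgebra.induction_on with
  | of g => rw [push_of]; rfl
  | add x y hx hy => simp only [map_add, hx, hy]
  | smul c x hx => simp only [push_smul, hx]

theorem push_mem (f : G →* H) {n : ℕ} {x : MonoidAlgebra R G} (hx : x ∈ augIdeal R G ^ n) :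
    push f x ∈ augIdeal R H ^ n := by
  have h1 : Ideal.map (push f) (augIdeal R G) ≤ augIdeal R H := by
    rw [Ideal.map_le_iff_le_comap]
    intro y hy
    rw [Ideal.mem_comap, mem_aug, aug_push]
    exact hy
  have h2 := Ideal.mem_map_of_mem (push f) hx
  rw [Ideal.map_pow] at h2
  exact Ideal.pow_right_mono h1 n h2

theorem of_sub_one (g : G) : MonoidAlgebra.of R G g - 1 ∈ augIdeal R G := by
  rw [mem_aug, map_sub, aug_of, map_one, sub_self]

/-- the operator `∏ (1 - e)` over the endomorphisms `e` in the list -/
noncomputable def DD : List (G →* G) → MonoidAlgebra R G →+ MonoidAlgebra R G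
  | [] => AddMonoidHom.id _
  | e :: L => (DD L).comp (AddMonoidHom.id _ - (push e : MonoidAlgebra R G →+* _).toAddMonoidHom)

theorem DD_cons (e : G →* G) (L : List (G →* G)) (x : MonoidAlgebra R G) :
    DD (e :: L) x = DD L x - DD L (push e x) := by
  show DD L (x - push e x) = _
  rw [map_sub]

theorem DD_mul (L : List (G →* G)) {z : MonoidAlgebra R G} (hz : ∀ e ∈ L, push e z = z)
    (x : MonoidAlgebra R G) : DD L (z * x) = z * DD L x := by
  induction L generalizing x with
  | nil => rfl
  | cons e L ih =>
    have h1 : ∀ e ∈ L, push e z = z := fun e he => hz e (List.mem_cons_of_mem _ he)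
    rw [DD_cons, DD_cons, map_mul (push e), hz e List.mem_cons_self, ih h1, ih h1, mul_sub]

theorem DD_smul (L : List (G →* G)) (c : R) (x : MonoidAlgebra R G) : DD L (c • x) = c • DD L x := by
  induction L generalizing x with
  | nil => rfl
  | cons e L ih => rw [DD_cons, DD_cons, push_smul, ih, ih, smul_sub]

theorem DD_mem (L : List (G →* G))
    (hL : L.Pairwise fun e e' => ∀ g : G, e' (g * (e g)⁻¹) = g * (e g)⁻¹) (x : MonoidAlgebra R G) :
    DD L x ∈ augIdeal R G ^ L.length := by
  induction L generalizing x with
  | nil => simp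
  | cons e L ih =>
    rw [List.pairwise_cons] at hL
    induction x using MonoidAlgebra.induction_on with
    | of g =>
      have h1 : MonoidAlgebra.of R G g = MonoidAlgebra.of R G (g * (e g)⁻¹) *
          MonoidAlgebra.of R G (e g) := by
        rw [← map_mul, inv_mul_cancel_right]
      have h2 : DD (e :: L) (MonoidAlgebra.of R G g) =
          (MonoidAlgebra.of R G (g * (e g)⁻¹) - 1) * DD L (MonoidAlgebra.of R G (e g)) := by
        rw [DD_cons, push_of, h1, DD_mul, sub_mul, one_mul]
        intro e' he'
        rw [push_of, hL.1 e' he' g]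
      rw [h2, List.length_cons, pow_succ']
      exact Ideal.mul_mem_mul (of_sub_one _) (ih hL.2 _)
    | add x y hx hy => rw [map_add]; exact add_mem hx hy
    | smul c x hx =>
      rw [DD_smul, Algebra.smul_def]
      exact Ideal.mul_mem_left _ _ hx

theorem DD_sub (L : List (G →* G)) (J : Ideal (MonoidAlgebra R H)) (a : MonoidAlgebra R G)
    (ha : ∀ (h : G →* H), ∀ e ∈ L, push (h.comp e) a ∈ J) (h : G →* H) :
    push h (DD L a) - push h a ∈ J := by
  induction L generalizing a with
  | nil =>
    show push h a - push h a ∈ J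
    rw [sub_self]; exact J.zero_mem
  | cons e L ih =>
    rw [DD_cons, map_sub]
    have h1 := ih a fun h' e' he' => ha h' e' (List.mem_cons_of_mem _ he')
    have h2 := ih (push e a) fun h' e' he' => by
      rw [push_push]
      exact ha (h'.comp e') e List.mem_cons_self
    have h3 := ha h e List.mem_cons_self
    rw [push_push] at h2
    have h4 : push h (DD L a) - push h (DD L (push e a)) - push h a =
        (push h (DD L a) - push h a) - (push h (DD L (push e a)) - push (h.comp e) a) -
          push (h.comp e) a := by ring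
    rw [h4]
    exact sub_mem (sub_mem h1 h2) h3

/-- inclusion and exclusion -/
theorem incl_excl (L : List (G →* G))
    (hL : L.Pairwise fun e e' => ∀ g : G, e' (g * (e g)⁻¹) = g * (e g)⁻¹)
    {n : ℕ} (hn : n ≤ L.length) (a : MonoidAlgebra R G)
    (ha : ∀ (h : G →* H), ∀ e ∈ L, push (h.comp e) a ∈ augIdeal R H ^ n) (h : G →* H) :
    push h a ∈ augIdeal R H ^ n := by
  have h1 := DD_sub L _ a ha h
  have h2 := push_mem h (Ideal.pow_le_pow_right hn (DD_mem L hL a))
  have h3 : push h a = push h (DD L a) - (push h (DD L a) - push h a) := by ring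
  rw [h3]
  exact sub_mem h2 h1

/-- products of elements which are congruent modulo the square -/
theorem prod_congr_sq {A : Type} [CommRing A] (I : Ideal A) {ι : Type} (s : Finset ι) (u v : ι → A)
    (hu : ∀ i ∈ s, u i ∈ I) (hv : ∀ i ∈ s, v i ∈ I) (h : ∀ i ∈ s, u i - v i ∈ I ^ 2) :
    ∏ i ∈ s, u i ∈ I ^ s.card ∧ ∏ i ∈ s, v i ∈ I ^ s.card ∧
      ∏ i ∈ s, u i - ∏ i ∈ s, v i ∈ I ^ (s.card + 1) := by
  classical
  induction s using Finset.induction_on with
  | empty => simp
  | insert i s hi ih =>
    obtain ⟨h1, h2, h3⟩ := ih (fun j hj => hu j (Finset.mem_insert_of_mem hj))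
      (fun j hj => hv j (Finset.mem_insert_of_mem hj)) (fun j hj => h j (Finset.mem_insert_of_mem hj))
    have hui := hu i (Finset.mem_insert_self i s)
    have hvi := hv i (Finset.mem_insert_self i s)
    rw [Finset.prod_insert hi, Finset.prod_insert hi, Finset.card_insert_of_notMem hi]
    refine ⟨?_, ?_, ?_⟩
    · rw [pow_succ']; exact Ideal.mul_mem_mul hui h1
    · rw [pow_succ']; exact Ideal.mul_mem_mul hvi h2
    · have e : u i * ∏ j ∈ s, u j - v i * ∏ j ∈ s, v j =
          (u i - v i) * ∏ j ∈ s, u j + v i * (∏ j ∈ s, u j - ∏ j ∈ s, v j) := by ring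
      rw [e]
      refine add_mem ?_ ?_
      · have := Ideal.mul_mem_mul (h i (Finset.mem_insert_self i s)) h1
        rw [← pow_add] at this
        exact Ideal.pow_le_pow_right (by omega) this
      · rw [pow_succ' I (s.card + 1)]
        exact Ideal.mul_mem_mul hvi h3

theorem det_congr {A : Type} [CommRing A] (I : Ideal A) {r : ℕ} (B C : Matrix (Fin r) (Fin r) A)
    (hB : ∀ i j, B i j ∈ I) (hC : ∀ i j, C i j ∈ I) (h : ∀ i j, B i j - C i j ∈ I ^ 2) :
    B.det ∈ I ^ r ∧ B.det - C.det ∈ I ^ (r + 1) := by
  have key := fun σ : Equiv.Perm (Fin r) => prod_congr_sq I Finset.univ (fun i => B (σ i) i)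
    (fun i => C (σ i) i) (fun i _ => hB _ _) (fun i _ => hC _ _) (fun i _ => h _ _)
  simp only [Finset.card_univ, Fintype.card_fin] at key
  constructor
  · rw [Matrix.det_apply]
    refine sum_mem fun σ _ => ?_
    rw [Units.smul_def, zsmul_eq_mul]
    exact Ideal.mul_mem_left _ _ (key σ).1
  · rw [Matrix.det_apply, Matrix.det_apply, ← Finset.sum_sub_distrib]
    refine sum_mem fun σ _ => ?_
    rw [← smul_sub, Units.smul_def, zsmul_eq_mul]
    exact Ideal.mul_mem_left _ _ (key σ).2.2

end

end Pool.Agent.Q5.MT
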