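import Pool.Agent.Q5.MT.Aug

/-!
# The congruence of Mazur and Tate
-/

set_option autoImplicit false

namespace Pool.Agent.Q5.MT

/-- The conductors: the products of distinct primes in `P`. -/
def Conductors (P : Set ℕ) : Set ℕ := {m | Squarefree m ∧ ∀ ℓ : ℕ, ℓ.Prime → ℓ ∣ m → ℓ ∈ P}

/-- The homomorphism `q` from `(Z/m)ˣ = Gal(ℚ(ζ_m)/ℚ)` to `G` is the restriction to an abelian field
`F ⊆ ℚ(ζ_m)` with the Galois group `G = Gal(F/ℚ)` whose degree is a power of `p` and whose conductor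
is `m`: `F` is not contained in `ℚ(ζ_n)` for a proper divisor `n` of `m`. -/
structure IsField (p m : ℕ) {G : Type} [CommGroup G] (q : (ZMod m)ˣ →* G) : Prop where
  surj : Function.Surjective q
  pgroup : IsPGroup p G
  cond : ∀ (n : ℕ) (h : n ∣ m), n ≠ m → ¬ (ZMod.unitsMap h).ker ≤ q.ker

section
variable (p : ℕ) [Fact p.Prime]

/-- The properties of the elements `θ_m` and of the height pairings which are used.
* `norm`: the norm relation `ℓ π(θ_{mℓ}) = (a_ℓ - ℓ σ_ℓ - σ_ℓ⁻¹) θ_m`, where `π` is the restriction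
  from the level `m ℓ` to the level `m` and `σ_ℓ` the class of `ℓ`;
* `height`, `compat`: the matrix `b_m` has entries in the augmentation ideal, and its classes modulo
  the square of this ideal (the values of the height pairing in `(Z/m)ˣ ⊗ Z_p = I / I²`) are
  compatible under restriction;
* `const`: `ℓ c_{mℓ} = - (ℓ + 1 - a_ℓ) c_m`. -/
structure IsMazurTate (P : Set ℕ) (a : ℕ → ℤ) {r : ℕ} (θ : ∀ m : ℕ, MonoidAlgebra ℤ_[p] (ZMod m)ˣ)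
    (b : ∀ m : ℕ, Matrix (Fin r) (Fin r) (MonoidAlgebra ℤ_[p] (ZMod m)ˣ)) (c : ℕ → ℤ_[p]) : Prop where
  norm : ∀ m ∈ Conductors P, ∀ ℓ ∈ P, ∀ h : ℓ.Coprime m,
    (ℓ : ℤ_[p]) • push (ZMod.unitsMap (dvd_mul_right m ℓ)) (θ (m * ℓ)) =
      ((a ℓ : ℤ_[p]) • 1 - (ℓ : ℤ_[p]) • MonoidAlgebra.of ℤ_[p] _ (ZMod.unitOfCoprime ℓ h) -
        MonoidAlgebra.of ℤ_[p] _ (ZMod.unitOfCoprime ℓ h)⁻¹) * θ m
  height : ∀ m ∈ Conductors P, ∀ i j, b m i j ∈ augIdeal ℤ_[p] (ZMod m)ˣ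
  compat : ∀ m ∈ Conductors P, ∀ ℓ ∈ P, ℓ.Coprime m → ∀ i j,
    push (ZMod.unitsMap (dvd_mul_right m ℓ)) (b (m * ℓ) i j) - b m i j ∈ augIdeal ℤ_[p] (ZMod m)ˣ ^ 2
  const : ∀ m ∈ Conductors P, ∀ ℓ ∈ P, ℓ.Coprime m →
    (ℓ : ℤ_[p]) * c (m * ℓ) = ((a ℓ : ℤ_[p]) - ℓ - 1) * c m

variable {p}

/-- The congruence of Mazur and Tate for the field given by `q : (Z/m)ˣ → G`, with the augmentation
ideal `I` of `Z_p[G]`: `θ_F ∈ I^r` and `θ_F ≡ c_m det ⟨x_i, x_j⟩_F` modulo `I^(r+1)`; `θ_F` and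
`⟨x_i, x_j⟩_F` are the images of `θ_m` and of the entries of `b_m` under `q`. -/
def Congruence {r : ℕ} (θ : ∀ m : ℕ, MonoidAlgebra ℤ_[p] (ZMod m)ˣ)
    (b : ∀ m : ℕ, Matrix (Fin r) (Fin r) (MonoidAlgebra ℤ_[p] (ZMod m)ˣ)) (c : ℕ → ℤ_[p]) (m : ℕ)
    {G : Type} [CommGroup G] (q : (ZMod m)ˣ →* G) : Prop :=
  push q (θ m) ∈ augIdeal ℤ_[p] G ^ r ∧
    push q (θ m) - c m • ((b m).map (push q)).det ∈ augIdeal ℤ_[p] G ^ (r + 1)

section
variable {P : Set ℕ} {a : ℕ → ℤ} {r : ℕ} {θ : ∀ m : ℕ, MonoidAlgebra ℤ_[p] (ZMod m)ˣ}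
  {b : ∀ m : ℕ, Matrix (Fin r) (Fin r) (MonoidAlgebra ℤ_[p] (ZMod m)ˣ)} {c : ℕ → ℤ_[p]}

theorem cond_dvd {m n : ℕ} (hm : m ∈ Conductors P) (h : n ∣ m) : n ∈ Conductors P :=
  ⟨hm.1.squarefree_of_dvd h, fun ℓ hℓ h' => hm.2 ℓ hℓ (h'.trans h)⟩

theorem unit_of_prime (hP : ∀ ℓ ∈ P, ℓ.Prime ∧ ℓ ≠ p) {ℓ : ℕ} (hℓ : ℓ ∈ P) :
    IsUnit (ℓ : ℤ_[p]) := by
  have h1 := (hP ℓ hℓ).1
  have h2 : ¬ p ∣ ℓ := fun h => (hP ℓ hℓ).2 ((Nat.prime_dvd_prime_iff_eq Fact.out h1).1 h).symm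
  rw [PadicInt.isUnit_iff]
  have h3 := PadicInt.norm_natCast_eq_one_iff (p := p) (n := ℓ)
  rw [h3]
  exact (Nat.coprime_primes Fact.out h1).2 fun h => (hP ℓ hℓ).2 h.symm

theorem smul_mem' {A : Type} [CommRing A] [Algebra ℤ_[p] A] {J : Ideal A} (z : ℤ_[p]) {x : A}
    (hx : x ∈ J) : z • x ∈ J := by
  rw [Algebra.smul_def]
  exact J.mul_mem_left _ hx

theorem of_smul_mem {A : Type} [CommRing A] [Algebra ℤ_[p] A] {J : Ideal A} {z : ℤ_[p]}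
    (hz : IsUnit z) {x : A} (hx : z • x ∈ J) : x ∈ J := by
  obtain ⟨u, rfl⟩ := hz
  have h1 := smul_mem' ((u⁻¹ : ℤ_[p]ˣ) : ℤ_[p]) hx
  rwa [smul_smul, Units.inv_mul, one_smul] at h1

theorem push_mem_one {G H : Type} [CommGroup G] [CommGroup H] (f : G →* H)
    {x : MonoidAlgebra ℤ_[p] G} (hx : x ∈ augIdeal ℤ_[p] G) : push f x ∈ augIdeal ℤ_[p] H := by
  rw [mem_aug, aug_push]
  exact hx

/-- `N = a - ℓ σ - σ⁻¹` is congruent to `a - ℓ - 1` -/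
theorem euler_mem {G : Type} [CommGroup G] (x : ℤ_[p]) (ℓ : ℕ) (g : G) :
    (x • (1 : MonoidAlgebra ℤ_[p] G) - (ℓ : ℤ_[p]) • MonoidAlgebra.of ℤ_[p] G g -
      MonoidAlgebra.of ℤ_[p] G g⁻¹) - (x - ℓ - 1) • 1 ∈ augIdeal ℤ_[p] G := by
  rw [mem_aug]
  simp only [map_sub, map_smul, aug_of, map_one]
  simp

/-- the two congruences for the level `m ℓ` and for the level `m` -/
theorem level (hP : ∀ ℓ ∈ P, ℓ.Prime ∧ ℓ ≠ p) (H : IsMazurTate p P a θ b c) {m ℓ : ℕ}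
    (hm : m ∈ Conductors P) (hℓ : ℓ ∈ P) (hc : ℓ.Coprime m) {G : Type} [CommGroup G]
    (q : (ZMod m)ˣ →* G) :
    ∃ N : MonoidAlgebra ℤ_[p] G, N - ((a ℓ : ℤ_[p]) - ℓ - 1) • 1 ∈ augIdeal ℤ_[p] G ∧
      (ℓ : ℤ_[p]) • push (q.comp (ZMod.unitsMap (dvd_mul_right m ℓ))) (θ (m * ℓ)) =
        N * push q (θ m) ∧
      ((b (m * ℓ)).map (push (q.comp (ZMod.unitsMap (dvd_mul_right m ℓ))))).det -
        ((b m).map (push q)).det ∈ augIdeal ℤ_[p] G ^ (r + 1) ∧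
      ((b m).map (push q)).det ∈ augIdeal ℤ_[p] G ^ r := by
  have hmℓ : m * ℓ ∈ Conductors P := by
    refine ⟨(Nat.squarefree_mul hc.symm).2 ⟨hm.1, (hP ℓ hℓ).1.squarefree⟩, fun ℓ' h1 h2 => ?_⟩
    rcases h1.dvd_mul.1 h2 with h | h
    · exact hm.2 ℓ' h1 h
    · rwa [(Nat.prime_dvd_prime_iff_eq h1 (hP ℓ hℓ).1).1 h]
  refine ⟨_, euler_mem (a ℓ : ℤ_[p]) ℓ (q (ZMod.unitOfCoprime ℓ hc)), ?_, ?_, ?_⟩
  · rw [← push_push, ← push_smul, H.norm m hm ℓ hℓ hc, map_mul]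
    simp only [map_sub, push_smul, push_of, map_one, map_inv]
  · refine (det_congr (augIdeal ℤ_[p] G) _ _ ?_ ?_ ?_).2
    · intro i j
      exact push_mem_one _ (H.height _ hmℓ i j)
    · intro i j
      exact push_mem_one _ (H.height _ hm i j)
    · intro i j
      have := push_mem q (n := 2) (H.compat m hm ℓ hℓ hc i j)
      rwa [map_sub, push_push] at this
  · refine (det_congr (augIdeal ℤ_[p] G) ((b m).map (push q)) ((b m).map (push q)) ?_ ?_ ?_).1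
    · intro i j
      exact push_mem_one _ (H.height _ hm i j)
    · intro i j
      exact push_mem_one _ (H.height _ hm i j)
    · intro i j
      rw [sub_self]
      exact Ideal.zero_mem _

theorem level_up (hP : ∀ ℓ ∈ P, ℓ.Prime ∧ ℓ ≠ p) (H : IsMazurTate p P a θ b c) {m ℓ : ℕ}
    (hm : m ∈ Conductors P) (hℓ : ℓ ∈ P) (hc : ℓ.Coprime m) {G : Type} [CommGroup G]
    (q : (ZMod m)ˣ →* G) (h : Congruence θ b c m q) :
    Congruence θ b c (m * ℓ) (q.comp (ZMod.unitsMap (dvd_mul_right m ℓ))) := by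
  obtain ⟨N, h1, h2, h3, h4⟩ := level hP H hm hℓ hc q
  have hu := unit_of_prime hP hℓ
  refine ⟨of_smul_mem hu ?_, of_smul_mem hu ?_⟩
  · rw [h2]
    exact Ideal.mul_mem_left _ _ h.1
  · set D' := ((b (m * ℓ)).map (push (q.comp (ZMod.unitsMap (dvd_mul_right m ℓ))))).det
    set D := ((b m).map (push q)).det
    set n : ℤ_[p] := (a ℓ : ℤ_[p]) - ℓ - 1
    have e : (ℓ : ℤ_[p]) • (push (q.comp (ZMod.unitsMap (dvd_mul_right m ℓ))) (θ (m * ℓ)) -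
        c (m * ℓ) • D') = (N - n • 1) * push q (θ m) + n • (push q (θ m) - c m • D) -
          (n * c m) • (D' - D) := by
      rw [smul_sub, h2, smul_smul, H.const m hm ℓ hℓ hc]
      simp only [Algebra.smul_def, map_mul, mul_one]
      ring
    rw [e]
    refine sub_mem (add_mem ?_ (smul_mem' _ h.2)) (smul_mem' _ h3)
    rw [pow_succ']
    exact Ideal.mul_mem_mul h1 h.1

theorem push_congruence {m : ℕ} {G G' : Type} [CommGroup G] [CommGroup G'] (q : (ZMod m)ˣ →* G)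
    (f : G →* G') (h : Congruence θ b c m q) : Congruence θ b c m (f.comp q) := by
  refine ⟨?_, ?_⟩
  · rw [← push_push]
    exact push_mem f h.1
  · have h1 := push_mem f h.2
    rw [map_sub, push_push, push_smul, RingHom.map_det] at h1
    convert h1 using 4
    ext i j
    simp only [Matrix.map_apply, RingHom.mapMatrix_apply, push_push]

end

end

end Pool.Agent.Q5.MT
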