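import Pool.Agent.Q5.MT.Psi

/-!
# Powers of the augmentation ideal are detected on cyclic quotients
-/

set_option autoImplicit false
set_option linter.unusedSectionVars false

namespace Pool.Agent.Q5.MT

open MvPolynomial

section
variable {p : ℕ} [Fact p.Prime] {ι : Type} [Fintype ι] [DecidableEq ι] (α : ι → ℕ)

/-- a finite abelian `p`-group -/
abbrev GG (p : ℕ) (α : ι → ℕ) : Type := ∀ i, Multiplicative (ZMod (p ^ α i))

/-- the generators -/
def gen (p : ℕ) (α : ι → ℕ) (i : ι) : GG p α := Pi.mulSingle i (Multiplicative.ofAdd 1)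

/-- the polynomials in the `g_i - 1` -/
noncomputable def Ps (p : ℕ) [Fact p.Prime] (α : ι → ℕ) :
    MvPolynomial ι ℤ_[p] →ₐ[ℤ_[p]] MonoidAlgebra ℤ_[p] (GG p α) :=
  aeval fun i => MonoidAlgebra.of ℤ_[p] _ (gen p α i) - 1

theorem Ps_X (i : ι) : Ps p α (X i) = MonoidAlgebra.of ℤ_[p] _ (gen p α i) - 1 := aeval_X _ _

theorem Ps_surj : Function.Surjective (Ps p α) := by
  have hne : ∀ i, NeZero (p ^ α i) := fun i => ⟨(pow_pos (Fact.out : p.Prime).pos _).ne'⟩
  have h1 : ∀ i, MonoidAlgebra.of ℤ_[p] _ (gen p α i) ∈ (Ps p α).range := by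
    intro i
    have : MonoidAlgebra.of ℤ_[p] _ (gen p α i) = Ps p α (X i + 1) := by
      rw [map_add, map_one, Ps_X, sub_add_cancel]
    rw [this]
    exact ⟨_, rfl⟩
  have h2 : ∀ g : GG p α, MonoidAlgebra.of ℤ_[p] _ g ∈ (Ps p α).range := by
    intro g
    rw [← Finset.univ_prod_mulSingle g, map_prod]
    refine prod_mem fun i _ => ?_
    have e : (Pi.mulSingle i (g i) : GG p α) = gen p α i ^ (Multiplicative.toAdd (g i)).val := by
      rw [gen, ← Pi.mulSingle_pow]
      congr 1
      rw [← ofAdd_nsmul, nsmul_eq_mul, mul_one, ZMod.natCast_zmod_val]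
      rfl
    rw [e, map_pow]
    exact pow_mem (h1 i) _
  intro x
  have h3 : x ∈ (Ps p α).range := by
    induction x using MonoidAlgebra.induction_on with
    | of g => exact h2 g
    | add x y hx hy => exact add_mem hx hy
    | smul c x hx => exact Subalgebra.smul_mem _ hx c
  exact h3

theorem aug_Ps (P : MvPolynomial ι ℤ_[p]) : aug ℤ_[p] _ (Ps p α P) = constantCoeff P := by
  have : ((aug ℤ_[p] (GG p α)).comp (Ps p α) : MvPolynomial ι ℤ_[p] →ₐ[ℤ_[p]] ℤ_[p]) =
      aeval (fun _ => 0) := by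
    apply MvPolynomial.algHom_ext
    intro i
    rw [AlgHom.comp_apply, Ps_X, map_sub, aug_of, map_one, sub_self, aeval_X]
  have h := DFunLike.congr_fun this P
  rw [AlgHom.comp_apply] at h
  rw [h, MvPolynomial.aeval_zero']
  rfl

theorem aug_eq_map : augIdeal ℤ_[p] (GG p α) = Ideal.map (Ps p α) (idealOfVars ι ℤ_[p]) := by
  apply le_antisymm
  · intro x hx
    obtain ⟨P, rfl⟩ := Ps_surj α x
    rw [mem_aug, aug_Ps] at hx
    refine Ideal.mem_map_of_mem _ ?_
    have := (MvPolynomial.mem_pow_idealOfVars_iff' 1 P).2 fun d hd => by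
      have : d = 0 := by
        rw [← Finsupp.degree_eq_zero_iff]; omega
      rw [this]; exact hx
    rwa [pow_one] at this
  · rw [Ideal.map_le_iff_le_comap, MvPolynomial.idealOfVars, Ideal.span_le]
    rintro _ ⟨i, rfl⟩
    show Ps p α (X i) ∈ augIdeal ℤ_[p] (GG p α)
    rw [Ps_X]
    exact of_sub_one _

theorem exists_poly {j : ℕ} {x : MonoidAlgebra ℤ_[p] (GG p α)} (hx : x ∈ augIdeal ℤ_[p] _ ^ j) :
    ∃ P ∈ idealOfVars ι ℤ_[p] ^ j, Ps p α P = x := by
  rw [aug_eq_map, ← Ideal.map_pow] at hx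
  exact (Ideal.mem_map_iff_of_surjective (Ps p α) (Ps_surj α)).1 hx

theorem Ps_mem {j : ℕ} {P : MvPolynomial ι ℤ_[p]} (hP : P ∈ idealOfVars ι ℤ_[p] ^ j) :
    Ps p α P ∈ augIdeal ℤ_[p] (GG p α) ^ j := by
  rw [aug_eq_map, ← Ideal.map_pow]
  exact Ideal.mem_map_of_mem _ hP

/-- `(1 + x)^N = 1 + N x + x² z` -/
theorem one_add_pow_sq {A : Type} [CommRing A] (x : A) (N : ℕ) :
    ∃ z, (1 + x) ^ N = 1 + N * x + x ^ 2 * z := by
  induction N with
  | zero => exact ⟨0, by simp⟩
  | succ N ih =>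
    obtain ⟨z, hz⟩ := ih
    refine ⟨z + N + x * z, ?_⟩
    rw [pow_succ, hz]
    push_cast
    ring

theorem pow_smul_gen (i : ι) :
    (p : ℤ_[p]) ^ α i • (MonoidAlgebra.of ℤ_[p] (GG p α) (gen p α i) - 1) ∈
      augIdeal ℤ_[p] (GG p α) ^ 2 := by
  set x := MonoidAlgebra.of ℤ_[p] (GG p α) (gen p α i) - 1 with hx
  obtain ⟨z, hz⟩ := one_add_pow_sq x (p ^ α i)
  have h1 : (1 + x) ^ (p ^ α i) = 1 := by
    rw [hx, add_sub_cancel, ← map_pow, gen, ← Pi.mulSingle_pow, ← ofAdd_nsmul, nsmul_eq_mul, mul_one,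
      ZMod.natCast_self, ofAdd_zero, Pi.mulSingle_one, map_one]
  rw [h1] at hz
  have h2 : (p : ℤ_[p]) ^ α i • x = ((p ^ α i : ℕ) : MonoidAlgebra ℤ_[p] (GG p α)) * x := by
    rw [Algebra.smul_def]
    congr 1
    rw [map_pow, map_natCast, Nat.cast_pow]
  have h3 : ((p ^ α i : ℕ) : MonoidAlgebra ℤ_[p] (GG p α)) * x = -(x ^ 2 * z) := by
    linear_combination -hz
  rw [h2, h3]
  exact neg_mem (Ideal.mul_mem_right _ _ (Ideal.pow_mem_pow (of_sub_one _) 2))

/-- the homomorphism `g_i ↦ w_i e_i` to the cyclic group of order `p^k` -/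
noncomputable def kap (p : ℕ) (α : ι → ℕ) (k : ℕ) (e : ι → ℕ) :
    GG p α →* Multiplicative (ZMod (p ^ k)) :=
  ∏ i, (AddMonoidHom.toMultiplicative (ZMod.lift (p ^ α i)
    ⟨zmultiplesHom _ ((p ^ (k - α i) * e i : ℕ) : ZMod (p ^ k)), by
      rw [zmultiplesHom_apply, natCast_zsmul, nsmul_eq_mul, ← Nat.cast_mul,
        ZMod.natCast_eq_zero_iff, ← mul_assoc, ← pow_add]
      exact Dvd.dvd.mul_right (pow_dvd_pow p (by omega)) _⟩)).comp
    (Pi.evalMonoidHom (fun i => Multiplicative (ZMod (p ^ α i))) i)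

theorem kap_gen (k : ℕ) (e : ι → ℕ) (i : ι) : kap p α k e (gen p α i) =
    Multiplicative.ofAdd ((p ^ (k - α i) * e i : ℕ) : ZMod (p ^ k)) := by
  rw [kap, MonoidHom.finsetProd_apply, Finset.prod_eq_single i]
  · rw [MonoidHom.comp_apply, Pi.evalMonoidHom_apply, gen, Pi.mulSingle_eq_same]
    show Multiplicative.ofAdd (ZMod.lift (p ^ α i) _ (1 : ZMod (p ^ α i))) = _
    congr 1
    have := ZMod.lift_coe (p ^ α i)
      ⟨zmultiplesHom _ ((p ^ (k - α i) * e i : ℕ) : ZMod (p ^ k)), by
        rw [zmultiplesHom_apply, natCast_zsmul, nsmul_eq_mul, ← Nat.cast_mul,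
          ZMod.natCast_eq_zero_iff, ← mul_assoc, ← pow_add]
        exact Dvd.dvd.mul_right (pow_dvd_pow p (by omega)) _⟩ (1 : ℤ)
    rw [Int.cast_one] at this
    rw [this]
    show zmultiplesHom _ ((p ^ (k - α i) * e i : ℕ) : ZMod (p ^ k)) (1 : ℤ) = _
    rw [zmultiplesHom_apply, one_zsmul]
  · intro b _ hb
    rw [MonoidHom.comp_apply, Pi.evalMonoidHom_apply, gen, Pi.mulSingle_eq_of_ne hb, map_one]
  · intro h
    exact absurd (Finset.mem_univ i) h

/-- the values of the homogeneous part -/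
theorem eval_dvd {j : ℕ} (hj : j < p) {P : MvPolynomial ι ℤ_[p]} (hP : P.IsHomogeneous j) (k : ℕ)
    (e : ι → ℕ) (h : push (kap p α k e) (Ps p α P) ∈
      augIdeal ℤ_[p] (Multiplicative (ZMod (p ^ k))) ^ (j + 1)) :
    (p : ℤ_[p]) ^ k ∣ eval (fun i => ((p ^ (k - α i) * e i : ℕ) : ℤ_[p])) P := by
  obtain ⟨ψ, h1, h2⟩ := exists_psi p k hj
  have h3 := psi_zero h1 h2 h
  set φ : ℤ_[p] →+* ZMod (p ^ k) := PadicInt.toZModPow k with hφ
  set v : ι → Polynomial (ZMod (p ^ k)) := fun i => (1 + Polynomial.X) ^ (p ^ (k - α i) * e i) - 1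
    with hv
  have h4 : (ψ.comp (push (kap p α k e))).comp (Ps p α : MvPolynomial ι ℤ_[p] →+* _) =
      (Ideal.Quotient.mk (QQ p k j)).comp (eval₂Hom (Polynomial.C.comp φ) v) := by
    apply MvPolynomial.ringHom_ext
    · intro c
      show ψ (push (kap p α k e) (Ps p α (C c))) = Ideal.Quotient.mk _ (eval₂Hom _ v (C c))
      have e1 : Ps p α (C c) = c • 1 := by
        rw [← MvPolynomial.algebraMap_eq, AlgHom.commutes, Algebra.algebraMap_eq_smul_one]
      rw [e1, push_smul, map_one, h2, map_one, mul_one, eval₂Hom_C]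
      rfl
    · intro i
      show ψ (push (kap p α k e) (Ps p α (X i))) = Ideal.Quotient.mk _ (eval₂Hom _ v (X i))
      rw [Ps_X, map_sub, push_of, kap_gen, map_sub, h1, map_one, map_one, eval₂Hom_X', hv, map_sub,
        map_one]
  have h5 := DFunLike.congr_fun h4 P
  have h6 : Ideal.Quotient.mk (QQ p k j) (eval₂ (Polynomial.C.comp φ) v P) = 0 := h5.symm.trans h3
  rw [Ideal.Quotient.eq_zero_iff_mem, QQ, Ideal.mem_span_singleton, ← MvPolynomial.eval₂_map] at h6
  have h7 : v = fun i => Polynomial.X * (v i).divX := by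
    funext i
    have h8 := Polynomial.divX_mul_X_add (v i)
    have h9 : (v i).coeff 0 = 0 := by
      rw [hv, Polynomial.coeff_zero_eq_eval_zero]
      simp
    rw [h9, map_zero, add_zero] at h8
    rw [mul_comm]
    exact h8.symm
  rw [h7] at h6
  have h8 := hom_eval _ (hP.map φ) _ h6
  have h9 : ∀ i, ((v i).divX).coeff 0 = ((p ^ (k - α i) * e i : ℕ) : ZMod (p ^ k)) := by
    intro i
    rw [Polynomial.coeff_divX, hv]
    simp only [zero_add, Polynomial.coeff_sub, Polynomial.coeff_one_add_X_pow, Nat.choose_one_right]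
    rw [Polynomial.coeff_one]
    simp
  simp only [h9] at h8
  rw [← zmodPow_zero_iff, ← hφ, ← h8, MvPolynomial.eval_map, MvPolynomial.eval₂_eq,
    MvPolynomial.eval_eq, map_sum]
  refine Finset.sum_congr rfl fun d _ => ?_
  rw [map_mul, map_prod]
  congr 1
  refine Finset.prod_congr rfl fun i _ => ?_
  rw [map_pow, map_natCast]

theorem det_pi {s : ℕ} (hs : s ≤ p) (x : MonoidAlgebra ℤ_[p] (GG p α))
    (h : ∀ (k : ℕ) (f : GG p α →* Multiplicative (ZMod (p ^ k))),
      push f x ∈ augIdeal ℤ_[p] (Multiplicative (ZMod (p ^ k))) ^ s) :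
    x ∈ augIdeal ℤ_[p] (GG p α) ^ s := by
  suffices H : ∀ j ≤ s, x ∈ augIdeal ℤ_[p] (GG p α) ^ j from H s le_rfl
  intro j
  induction j with
  | zero => intro _; simp
  | succ j ih =>
    intro hjs
    have hx := ih (by omega)
    rcases Nat.eq_zero_or_pos j with hj0 | hj0
    · subst hj0
      have h1 := Ideal.pow_le_self (by omega) (h 0 1)
      rw [mem_aug, aug_push] at h1
      rw [zero_add, pow_one]
      exact h1
    have hjp : j < p := by omega
    obtain ⟨P, hP, rfl⟩ := exists_poly α hx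
    set f := homogeneousComponent j P with hf
    have hfh : f.IsHomogeneous j := homogeneousComponent_isHomogeneous j P
    have hfd : f.totalDegree < p := lt_of_le_of_lt hfh.totalDegree_le hjp
    have hPf : P - f ∈ idealOfVars ι ℤ_[p] ^ (j + 1) := by
      rw [MvPolynomial.mem_pow_idealOfVars_iff']
      intro d hd
      rw [MvPolynomial.coeff_sub, hf, MvPolynomial.coeff_homogeneousComponent]
      by_cases h1 : Finsupp.degree d = j
      · rw [if_pos h1, sub_self]
      · rw [if_neg h1, sub_zero]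
        exact (MvPolynomial.mem_pow_idealOfVars_iff' _ _).1 hP d (by omega)
    have hdiff : Ps p α (P - f) ∈ augIdeal ℤ_[p] (GG p α) ^ (j + 1) := Ps_mem α hPf
    have hval : ∀ (k : ℕ) (e : ι → ℕ),
        (p : ℤ_[p]) ^ k ∣ eval (fun i => ((p ^ (k - α i) * e i : ℕ) : ℤ_[p])) f := by
      intro k e
      refine eval_dvd α hjp hfh k e ?_
      have h1 := Ideal.pow_le_pow_right hjs (h k (kap p α k e))
      have h2 := push_mem (kap p α k e) hdiff
      have h3 : push (kap p α k e) (Ps p α f) =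
          push (kap p α k e) (Ps p α P) - push (kap p α k e) (Ps p α (P - f)) := by
        rw [← map_sub, ← map_sub, sub_sub_cancel]
      rw [h3]
      exact sub_mem h1 h2
    have hmon : ∀ β ∈ f.support, Ps p α (monomial β (coeff β f)) ∈
        augIdeal ℤ_[p] (GG p α) ^ (j + 1) := by
      intro β hβ
      have hdeg : Finsupp.degree β = j := by
        have := hfh (MvPolynomial.mem_support_iff.1 hβ)
        exact (DFunLike.congr_fun Finsupp.degree_eq_weight_one β).trans this
      have hne : β.support.Nonempty := by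
        rw [Finsupp.support_nonempty_iff]
        rintro rfl
        rw [map_zero] at hdeg
        omega
      obtain ⟨i, hi, hmin⟩ := Finset.exists_min_image β.support α hne
      have hd := coeff_dvd_scaled (α i) f hfd (fun i' => p ^ (α i - α i')) (hval (α i)) β
        (fun i' hi' => by
          have := hmin i' hi'
          show p ^ (α i - α i') = 1
          rw [Nat.sub_eq_zero_of_le this, pow_zero])
      obtain ⟨c, hc⟩ := hd
      have hb : 1 ≤ β i := Nat.one_le_iff_ne_zero.2 (Finsupp.mem_support_iff.1 hi)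
      have hsplit : β = (β - Finsupp.single i 1) + Finsupp.single i 1 := by
        refine (tsub_add_cancel_of_le ?_).symm
        rwa [Finsupp.single_le_iff]
      have hm : monomial β (coeff β f) = monomial (β - Finsupp.single i 1) c *
          (C ((p : ℤ_[p]) ^ α i) * X i) := by
        rw [hc]
        conv_lhs => rw [hsplit]
        rw [X, C_mul_monomial, monomial_mul, mul_one, mul_comm c]
      rw [hm, map_mul]
      have h1 : Ps p α (monomial (β - Finsupp.single i 1) c) ∈
          augIdeal ℤ_[p] (GG p α) ^ (j - 1) := by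
        refine Ps_mem α ?_
        rw [MvPolynomial.mem_pow_idealOfVars_iff']
        intro d hd
        rw [MvPolynomial.coeff_monomial, if_neg]
        rintro rfl
        have h2 : Finsupp.degree β = Finsupp.degree (β - Finsupp.single i 1) + 1 := by
          conv_lhs => rw [hsplit]
          rw [map_add, Finsupp.degree_single]
        omega
      have h2 : Ps p α (C ((p : ℤ_[p]) ^ α i) * X i) ∈ augIdeal ℤ_[p] (GG p α) ^ 2 := by
        have e1 : Ps p α (C ((p : ℤ_[p]) ^ α i) * X i) =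
            (p : ℤ_[p]) ^ α i • (MonoidAlgebra.of ℤ_[p] (GG p α) (gen p α i) - 1) := by
          rw [← MvPolynomial.smul_eq_C_mul, map_smul, Ps_X]
        rw [e1]
        exact pow_smul_gen α i
      have h3 := Ideal.mul_mem_mul h1 h2
      rw [← pow_add] at h3
      exact Ideal.pow_le_pow_right (by omega) h3
    have hfm : Ps p α f ∈ augIdeal ℤ_[p] (GG p α) ^ (j + 1) := by
      rw [← MvPolynomial.support_sum_monomial_coeff f, map_sum]
      exact sum_mem hmon
    have h1 : Ps p α P = Ps p α (P - f) + Ps p α f := by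
      rw [← map_add, sub_add_cancel]
    rw [h1]
    exact add_mem hdiff hfm

end

/-- **Detection.** For `s ≤ p` the power `I^s` of the augmentation ideal of a finite abelian `p`-group
is detected on the cyclic quotients. -/
theorem detect {p : ℕ} [Fact p.Prime] {G : Type} [CommGroup G] [Finite G] (hG : IsPGroup p G)
    {s : ℕ} (hs : s ≤ p) (x : MonoidAlgebra ℤ_[p] G)
    (h : ∀ (k : ℕ) (f : G →* Multiplicative (ZMod (p ^ k))),
      push f x ∈ augIdeal ℤ_[p] (Multiplicative (ZMod (p ^ k))) ^ s) :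
    x ∈ augIdeal ℤ_[p] G ^ s := by
  classical
  obtain ⟨ι, hι, n, hn, ⟨E⟩⟩ := CommGroup.equiv_prod_multiplicative_zmod_of_finite G
  have h1 : ∀ i, ∃ a, n i = p ^ a := by
    intro i
    obtain ⟨a, ha⟩ := (IsPGroup.iff_orderOf.1 hG) (E.symm (Pi.mulSingle i (Multiplicative.ofAdd 1)))
    refine ⟨a, ?_⟩
    have e := orderOf_injective (MonoidHom.mulSingle (fun i => Multiplicative (ZMod (n i))) i)
      (fun a b hab => by simpa using congrFun hab i) (Multiplicative.ofAdd (1 : ZMod (n i)))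
    rw [MonoidHom.mulSingle_apply] at e
    rw [← ha, MulEquiv.orderOf_eq, e, orderOf_ofAdd_eq_addOrderOf, ZMod.addOrderOf_one]
  choose α hα using h1
  obtain rfl : n = fun i => p ^ α i := funext hα
  have h2 : push (E : G →* GG p α) x ∈ augIdeal ℤ_[p] (GG p α) ^ s := by
    refine det_pi α hs _ fun k f => ?_
    rw [push_push]
    exact h k _
  have h3 := push_mem (E.symm : GG p α →* G) h2
  rw [push_push] at h3
  have h4 : (E.symm : GG p α →* G).comp (E : G →* GG p α) = MonoidHom.id G := by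
    ext g
    simp
  rwa [h4, push_id] at h3

end Pool.Agent.Q5.MT
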