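import Pool.Agent.Q5.MT.Data

/-!
# The components of `(Z/m)ˣ`
-/

set_option autoImplicit false

namespace Pool.Agent.Q5.MT

theorem unitsMap_comp' {n k m : ℕ} (h1 : n ∣ k) (h2 : k ∣ m) (h : n ∣ m) (g : (ZMod m)ˣ) :
    ZMod.unitsMap h1 (ZMod.unitsMap h2 g) = ZMod.unitsMap h g :=
  DFunLike.congr_fun (ZMod.unitsMap_comp h1 h2) g

theorem crt_ext {k ℓ : ℕ} (hc : ℓ.Coprime k) {u v : (ZMod (k * ℓ))ˣ}
    (h1 : ZMod.unitsMap (dvd_mul_right k ℓ) u = ZMod.unitsMap (dvd_mul_right k ℓ) v)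
    (h2 : ZMod.unitsMap (dvd_mul_left ℓ k) u = ZMod.unitsMap (dvd_mul_left ℓ k) v) : u = v := by
  obtain ⟨x, hx⟩ := ZMod.intCast_surjective (u : ZMod (k * ℓ))
  obtain ⟨y, hy⟩ := ZMod.intCast_surjective (v : ZMod (k * ℓ))
  apply Units.ext
  have e1 : ((x : ℤ) : ZMod k) = (y : ℤ) := by
    have := congrArg Units.val h1
    rw [ZMod.unitsMap_val, ZMod.unitsMap_val, ← hx, ← hy] at this
    simpa using this
  have e2 : ((x : ℤ) : ZMod ℓ) = (y : ℤ) := by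
    have := congrArg Units.val h2
    rw [ZMod.unitsMap_val, ZMod.unitsMap_val, ← hx, ← hy] at this
    simpa using this
  rw [ZMod.intCast_eq_intCast_iff_dvd_sub] at e1 e2
  rw [← hx, ← hy, ZMod.intCast_eq_intCast_iff_dvd_sub]
  push_cast
  exact IsCoprime.mul_dvd (Nat.isCoprime_iff_coprime.2 hc.symm) e1 e2

theorem exists_kill {k ℓ : ℕ} (hc : ℓ.Coprime k) : ∃ e : (ZMod (k * ℓ))ˣ →* (ZMod (k * ℓ))ˣ,
    (∀ g, ZMod.unitsMap (dvd_mul_right k ℓ) (e g) = ZMod.unitsMap (dvd_mul_right k ℓ) g) ∧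
    ∀ g, ZMod.unitsMap (dvd_mul_left ℓ k) (e g) = 1 := by
  set Φ : ZMod (k * ℓ) ≃+* ZMod k × ZMod ℓ := ZMod.chineseRemainder hc.symm
  set Ψ : (ZMod (k * ℓ))ˣ ≃* (ZMod k)ˣ × (ZMod ℓ)ˣ :=
    (Units.mapEquiv Φ.toMulEquiv).trans MulEquiv.prodUnits
  have f1 : ∀ x, (Φ x).1 = ZMod.castHom (dvd_mul_right k ℓ) (ZMod k) x := by
    intro x
    have : (RingHom.fst (ZMod k) (ZMod ℓ)).comp (Φ : ZMod (k * ℓ) →+* ZMod k × ZMod ℓ) =
      ZMod.castHom (dvd_mul_right k ℓ) (ZMod k) := Subsingleton.elim _ _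
    exact DFunLike.congr_fun this x
  have f2 : ∀ x, (Φ x).2 = ZMod.castHom (dvd_mul_left ℓ k) (ZMod ℓ) x := by
    intro x
    have : (RingHom.snd (ZMod k) (ZMod ℓ)).comp (Φ : ZMod (k * ℓ) →+* ZMod k × ZMod ℓ) =
      ZMod.castHom (dvd_mul_left ℓ k) (ZMod ℓ) := Subsingleton.elim _ _
    exact DFunLike.congr_fun this x
  have g1 : ∀ u, (Ψ u).1 = ZMod.unitsMap (dvd_mul_right k ℓ) u := by
    intro u
    apply Units.ext
    rw [ZMod.unitsMap_val]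
    exact f1 _
  have g2 : ∀ u, (Ψ u).2 = ZMod.unitsMap (dvd_mul_left ℓ k) u := by
    intro u
    apply Units.ext
    rw [ZMod.unitsMap_val]
    exact f2 _
  refine ⟨Ψ.symm.toMonoidHom.comp (((MonoidHom.fst _ _).prod 1).comp Ψ.toMonoidHom), ?_, ?_⟩
  · intro g
    rw [← g1, ← g1]
    show (Ψ (Ψ.symm ((Ψ g).1, 1))).1 = _
    rw [MulEquiv.apply_symm_apply]
  · intro g
    rw [← g2]
    show (Ψ (Ψ.symm ((Ψ g).1, 1))).2 = _
    rw [MulEquiv.apply_symm_apply]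

/-- `e` removes the component at `ℓ` -/
def Kills (m ℓ : ℕ) (e : (ZMod m)ˣ →* (ZMod m)ˣ) : Prop :=
  (∀ (n : ℕ) (h : n ∣ m), ℓ.Coprime n → ∀ g, ZMod.unitsMap h (e g) = ZMod.unitsMap h g) ∧
    ∀ (h : ℓ ∣ m) (g), ZMod.unitsMap h (e g) = 1

theorem exists_kills {m ℓ : ℕ} (hm : Squarefree m) (hℓ : ℓ.Prime) (h : ℓ ∣ m) :
    ∃ e, Kills m ℓ e := by
  obtain ⟨k, rfl⟩ : ∃ k, m = k * ℓ := by
    obtain ⟨k, hk⟩ := h
    exact ⟨k, by rw [hk, mul_comm]⟩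
  have hc : ℓ.Coprime k := (Nat.coprime_of_squarefree_mul hm).symm
  obtain ⟨e, h1, h2⟩ := exists_kill hc
  refine ⟨e, fun n hn hcn g => ?_, fun _ g => h2 g⟩
  have hnk : n ∣ k := hcn.symm.dvd_of_dvd_mul_right hn
  rw [← unitsMap_comp' hnk (dvd_mul_right k ℓ) hn, ← unitsMap_comp' hnk (dvd_mul_right k ℓ) hn, h1]

theorem kills_ext {m ℓ : ℕ} (hm : Squarefree m) (hℓ : ℓ.Prime) (h : ℓ ∣ m) {u v : (ZMod m)ˣ}
    (h1 : ∀ (n : ℕ) (h : n ∣ m), ℓ.Coprime n → ZMod.unitsMap h u = ZMod.unitsMap h v)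
    (h2 : ZMod.unitsMap h u = ZMod.unitsMap h v) : u = v := by
  obtain ⟨k, rfl⟩ : ∃ k, m = k * ℓ := by
    obtain ⟨k, hk⟩ := h
    exact ⟨k, by rw [hk, mul_comm]⟩
  have hc : ℓ.Coprime k := (Nat.coprime_of_squarefree_mul hm).symm
  exact crt_ext hc (h1 k (dvd_mul_right k ℓ) hc) h2

theorem kills_fixed {m ℓ ℓ' : ℕ} (hm : Squarefree m) (hℓ' : ℓ'.Prime)
    (h' : ℓ' ∣ m) (hne : ℓ.Coprime ℓ') {e e' : (ZMod m)ˣ →* (ZMod m)ˣ} (he : Kills m ℓ e)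
    (he' : Kills m ℓ' e') (g : (ZMod m)ˣ) : e' (g * (e g)⁻¹) = g * (e g)⁻¹ := by
  refine kills_ext hm hℓ' h' (fun n hn hc => he'.1 n hn hc _) ?_
  rw [he'.2 h', map_mul, map_inv, he.1 ℓ' h' hne, mul_inv_cancel]

theorem kills_ker {m ℓ : ℕ} (hm : Squarefree m) (hℓ : ℓ.Prime) (h : ℓ ∣ m)
    {e : (ZMod m)ˣ →* (ZMod m)ˣ} (he : Kills m ℓ e) {k : ℕ} (hk : k * ℓ = m)
    {G : Type} [CommGroup G] (q : (ZMod m)ˣ →* G) :
    (ZMod.unitsMap (Dvd.intro _ hk)).ker ≤ (q.comp e).ker := by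
  intro g hg
  rw [MonoidHom.mem_ker] at hg ⊢
  have : e g = 1 := by
    refine kills_ext hm hℓ h (fun n hn hc => ?_) ?_
    · have hnk : n ∣ k := by
        rw [← hk] at hn
        exact hc.symm.dvd_of_dvd_mul_right hn
      rw [he.1 n hn hc, map_one, ← unitsMap_comp' hnk (Dvd.intro _ hk) hn, hg, map_one]
    · rw [he.2 h, map_one]
  rw [MonoidHom.comp_apply, this, map_one]

/-- the homomorphisms which remove the components, for all primes -/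
theorem exists_list {m : ℕ} (hm : Squarefree m) : ∃ L : List ((ZMod m)ˣ →* (ZMod m)ˣ),
    L.length = m.primeFactors.card ∧
    (L.Pairwise fun e e' => ∀ g, e' (g * (e g)⁻¹) = g * (e g)⁻¹) ∧
    ∀ e ∈ L, ∃ ℓ : ℕ, ℓ.Prime ∧ ℓ ∣ m ∧ Kills m ℓ e := by
  classical
  have h0 : ∀ ℓ : ℕ, ∃ e : (ZMod m)ˣ →* (ZMod m)ˣ, ℓ.Prime → ℓ ∣ m → Kills m ℓ e := by
    intro ℓ
    by_cases h : ℓ.Prime ∧ ℓ ∣ m
    · obtain ⟨e, he⟩ := exists_kills hm h.1 h.2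
      exact ⟨e, fun _ _ => he⟩
    · exact ⟨1, fun h1 h2 => (h ⟨h1, h2⟩).elim⟩
  choose e he using h0
  have hmem : ∀ ℓ ∈ m.primeFactors.toList, ℓ.Prime ∧ ℓ ∣ m := by
    intro ℓ h
    rw [Finset.mem_toList, Nat.mem_primeFactors] at h
    exact ⟨h.1, h.2.1⟩
  refine ⟨m.primeFactors.toList.map e, by simp, ?_, ?_⟩
  · rw [List.pairwise_map]
    have h1 : m.primeFactors.toList.Pairwise fun a b => a ≠ b := Finset.nodup_toList _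
    refine h1.imp_of_mem fun {a b} ha hb hab g => ?_
    obtain ⟨ha1, ha2⟩ := hmem a ha
    obtain ⟨hb1, hb2⟩ := hmem b hb
    exact kills_fixed hm hb1 hb2 ((Nat.coprime_primes ha1 hb1).2 hab) (he a ha1 ha2) (he b hb1 hb2) g
  · intro f hf
    rw [List.mem_map] at hf
    obtain ⟨ℓ, h1, rfl⟩ := hf
    obtain ⟨h2, h3⟩ := hmem ℓ h1
    exact ⟨ℓ, h2, h3, he ℓ h2 h3⟩

end Pool.Agent.Q5.MT
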