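import Pool.Agent.Q5.MT.Det

/-!
# Power moments of elements of the group ring
-/

set_option autoImplicit false
set_option linter.unusedSectionVars false

namespace Pool.Agent.Q5.MT

open MvPolynomial

section
variable {p : ℕ} [Fact p.Prime] {G H : Type} [CommGroup G] [CommGroup H] {k : ℕ}

/-- The power moment `∑ x_g χ(g)^j` modulo `p^k` of an element `x = ∑ x_g g` of `Z_p[G]`, for a
homomorphism `χ` from `G` to the additive group of `Z/p^k`. -/
noncomputable def moment (χ : G →* Multiplicative (ZMod (p ^ k))) (j : ℕ)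
    (x : MonoidAlgebra ℤ_[p] G) : ZMod (p ^ k) :=
  x.coeff.sum fun g a => PadicInt.toZModPow k a * Multiplicative.toAdd (χ g) ^ j

theorem moment_add (χ : G →* Multiplicative (ZMod (p ^ k))) (j : ℕ) (x y : MonoidAlgebra ℤ_[p] G) :
    moment χ j (x + y) = moment χ j x + moment χ j y := by
  unfold moment
  rw [MonoidAlgebra.coeff_add]
  refine Finsupp.sum_add_index' (fun g => ?_) (fun g a b => ?_)
  · rw [map_zero, zero_mul]
  · rw [map_add, add_mul]

theorem moment_zero_right (χ : G →* Multiplicative (ZMod (p ^ k))) (j : ℕ) :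
    moment χ j (0 : MonoidAlgebra ℤ_[p] G) = 0 := by
  unfold moment
  simp

/-- the moment as a homomorphism of additive groups -/
noncomputable def momH (χ : G →* Multiplicative (ZMod (p ^ k))) (j : ℕ) :
    MonoidAlgebra ℤ_[p] G →+ ZMod (p ^ k) where
  toFun := moment χ j
  map_zero' := moment_zero_right χ j
  map_add' := moment_add χ j

theorem moment_of (χ : G →* Multiplicative (ZMod (p ^ k))) (j : ℕ) (g : G) :
    moment χ j (MonoidAlgebra.of ℤ_[p] G g) = Multiplicative.toAdd (χ g) ^ j := by
  have e : (MonoidAlgebra.of ℤ_[p] G g).coeff = Finsupp.single g 1 := by simp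
  unfold moment
  rw [e, Finsupp.sum_single_index]
  · rw [map_one, one_mul]
  · rw [map_zero, zero_mul]

theorem moment_smul (χ : G →* Multiplicative (ZMod (p ^ k))) (j : ℕ) (c : ℤ_[p])
    (x : MonoidAlgebra ℤ_[p] G) :
    moment χ j (c • x) = PadicInt.toZModPow k c * moment χ j x := by
  unfold moment
  rw [MonoidAlgebra.coeff_smul, Finsupp.sum_smul_index' (fun g => by rw [map_zero, zero_mul]),
    Finsupp.mul_sum]
  refine Finsupp.sum_congr fun g _ => ?_
  rw [smul_eq_mul, map_mul, mul_assoc]

theorem moment_sub (χ : G →* Multiplicative (ZMod (p ^ k))) (j : ℕ) (x y : MonoidAlgebra ℤ_[p] G) :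
    moment χ j (x - y) = moment χ j x - moment χ j y := map_sub (momH χ j) x y

theorem moment_sum {ι : Type} (s : Finset ι) (χ : G →* Multiplicative (ZMod (p ^ k))) (j : ℕ)
    (x : ι → MonoidAlgebra ℤ_[p] G) :
    moment χ j (∑ i ∈ s, x i) = ∑ i ∈ s, moment χ j (x i) := map_sum (momH χ j) x s

theorem moment_push (f : G →* H) (χ : H →* Multiplicative (ZMod (p ^ k))) (j : ℕ)
    (x : MonoidAlgebra ℤ_[p] G) : moment χ j (push f x) = moment (χ.comp f) j x := by
  induction x using MonoidAlgebra.induction_on with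
  | of g => rw [push_of, moment_of, moment_of]; rfl
  | add x y hx hy => rw [map_add, moment_add, moment_add, hx, hy]
  | smul c x hx => rw [push_smul, moment_smul, moment_smul, hx]

theorem moment_aug (χ : G →* Multiplicative (ZMod (p ^ k))) (x : MonoidAlgebra ℤ_[p] G) :
    moment χ 0 x = PadicInt.toZModPow k (aug ℤ_[p] G x) := by
  induction x using MonoidAlgebra.induction_on with
  | of g => rw [moment_of, aug_of, pow_zero, map_one]
  | add x y hx hy => rw [moment_add, map_add, map_add, hx, hy]
  | smul c x hx => rw [moment_smul, map_smul, smul_eq_mul, map_mul, hx]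

/-- Leibniz rule -/
theorem moment_mul (χ : G →* Multiplicative (ZMod (p ^ k))) (n : ℕ) (x y : MonoidAlgebra ℤ_[p] G) :
    moment χ n (x * y) =
      ∑ i ∈ Finset.range (n + 1), moment χ i x * moment χ (n - i) y * (n.choose i : ZMod (p ^ k)) := by
  induction x using MonoidAlgebra.induction_on with
  | of g =>
    induction y using MonoidAlgebra.induction_on with
    | of h =>
      rw [← map_mul, moment_of, map_mul, toAdd_mul, add_pow]
      refine Finset.sum_congr rfl fun i _ => ?_
      rw [moment_of, moment_of]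
    | add x y hx hy =>
      rw [mul_add, moment_add, hx, hy, ← Finset.sum_add_distrib]
      refine Finset.sum_congr rfl fun i _ => ?_
      rw [moment_add]
      ring
    | smul c x hx =>
      rw [mul_smul_comm, moment_smul, hx, Finset.mul_sum]
      refine Finset.sum_congr rfl fun i _ => ?_
      rw [moment_smul]
      ring
  | add x z hx hz =>
    rw [add_mul, moment_add, hx, hz, ← Finset.sum_add_distrib]
    refine Finset.sum_congr rfl fun i _ => ?_
    rw [moment_add]
    ring
  | smul c x hx =>
    rw [smul_mul_assoc, moment_smul, hx, Finset.mul_sum]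
    refine Finset.sum_congr rfl fun i _ => ?_
    rw [moment_smul]
    ring

theorem moment_zero (χ : G →* Multiplicative (ZMod (p ^ k))) {s : ℕ} {x : MonoidAlgebra ℤ_[p] G}
    (hx : x ∈ augIdeal ℤ_[p] G ^ s) : ∀ j < s, moment χ j x = 0 := by
  induction s generalizing x with
  | zero => intro j hj; omega
  | succ s ih =>
    intro j hj
    rw [pow_succ'] at hx
    refine Submodule.mul_induction_on hx (fun a ha b hb => ?_) (fun a b ha hb => ?_)
    · rw [moment_mul]
      refine Finset.sum_eq_zero fun i hi => ?_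
      rw [Finset.mem_range] at hi
      rcases Nat.eq_zero_or_pos i with h0 | h0
      · subst h0
        rw [moment_aug, mem_aug.1 ha, map_zero, zero_mul, zero_mul]
      · rw [ih hb (j - i) (by omega), mul_zero, zero_mul]
    · rw [moment_add, ha, hb, add_zero]

/-- leading moments -/
def Lead (χ : G →* Multiplicative (ZMod (p ^ k))) (s : ℕ) (x : MonoidAlgebra ℤ_[p] G)
    (v : ZMod (p ^ k)) : Prop :=
  x ∈ augIdeal ℤ_[p] G ^ s ∧ moment χ s x = (s.factorial : ZMod (p ^ k)) * v

theorem lead_mul {χ : G →* Multiplicative (ZMod (p ^ k))} {s t : ℕ} {x y : MonoidAlgebra ℤ_[p] G}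
    {v w : ZMod (p ^ k)} (hx : Lead χ s x v) (hy : Lead χ t y w) : Lead χ (s + t) (x * y) (v * w) := by
  refine ⟨?_, ?_⟩
  · rw [pow_add]
    exact Ideal.mul_mem_mul hx.1 hy.1
  · rw [moment_mul, Finset.sum_eq_single s]
    · rw [hx.2, Nat.add_sub_cancel_left, hy.2]
      have h := Nat.add_choose_mul_factorial_mul_factorial s t
      have h' : (s + t).choose t = (s + t).choose s := Nat.choose_symm_add.symm
      rw [h'] at h
      rw [← h]
      push_cast
      ring
    · intro i hi hne
      rw [Finset.mem_range] at hi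
      rcases lt_or_gt_of_ne hne with h | h
      · rw [moment_zero χ hx.1 i h, zero_mul, zero_mul]
      · rw [moment_zero χ hy.1 (s + t - i) (by omega), mul_zero, zero_mul]
    · intro h
      exact absurd (Finset.mem_range.2 (by omega)) h

theorem lead_one (χ : G →* Multiplicative (ZMod (p ^ k))) : Lead χ 0 (1 : MonoidAlgebra ℤ_[p] G) 1 := by
  refine ⟨by simp, ?_⟩
  rw [moment_aug, map_one, map_one]
  simp

theorem lead_pow {χ : G →* Multiplicative (ZMod (p ^ k))} {s : ℕ} {x : MonoidAlgebra ℤ_[p] G}
    {v : ZMod (p ^ k)} (hx : Lead χ s x v) (n : ℕ) : Lead χ (n * s) (x ^ n) (v ^ n) := by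
  induction n with
  | zero => rw [zero_mul, pow_zero, pow_zero]; exact lead_one χ
  | succ n ih =>
    rw [pow_succ, pow_succ, Nat.succ_mul]
    exact lead_mul ih hx

theorem lead_prod {ι : Type} {χ : G →* Multiplicative (ZMod (p ^ k))} (t : Finset ι) {s : ι → ℕ}
    {x : ι → MonoidAlgebra ℤ_[p] G} {v : ι → ZMod (p ^ k)} (h : ∀ i ∈ t, Lead χ (s i) (x i) (v i)) :
    Lead χ (∑ i ∈ t, s i) (∏ i ∈ t, x i) (∏ i ∈ t, v i) := by
  classical
  induction t using Finset.induction_on with
  | empty => simpa using lead_one χ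
  | insert i t hi ih =>
    rw [Finset.sum_insert hi, Finset.prod_insert hi, Finset.prod_insert hi]
    exact lead_mul (h i (Finset.mem_insert_self i t)) (ih fun j hj => h j (Finset.mem_insert_of_mem hj))

theorem lead_of_mem {χ : G →* Multiplicative (ZMod (p ^ k))} {x : MonoidAlgebra ℤ_[p] G}
    (hx : x ∈ augIdeal ℤ_[p] G) : Lead χ 1 x (moment χ 1 x) := by
  refine ⟨by rwa [pow_one], ?_⟩
  simp

/-- the moment of a determinant -/
theorem lead_det {r : ℕ} {χ : G →* Multiplicative (ZMod (p ^ k))}
    (B : Matrix (Fin r) (Fin r) (MonoidAlgebra ℤ_[p] G)) (hB : ∀ i j, B i j ∈ augIdeal ℤ_[p] G) :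
    Lead χ r B.det (Matrix.det fun i j => moment χ 1 (B i j)) := by
  have key : ∀ σ : Equiv.Perm (Fin r), Lead χ r (∏ i, B (σ i) i) (∏ i, moment χ 1 (B (σ i) i)) := by
    intro σ
    have h := lead_prod (χ := χ) Finset.univ (s := fun _ => 1) (x := fun i => B (σ i) i)
      (v := fun i => moment χ 1 (B (σ i) i)) fun i _ => lead_of_mem (hB _ _)
    simpa using h
  refine ⟨?_, ?_⟩
  · rw [Matrix.det_apply]
    refine sum_mem fun σ _ => ?_
    rw [Units.smul_def, zsmul_eq_mul]
    exact Ideal.mul_mem_left _ _ (key σ).1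
  · rw [Matrix.det_apply, Matrix.det_apply (M := fun i j => moment χ 1 (B i j)), moment_sum,
      Finset.mul_sum]
    refine Finset.sum_congr rfl fun σ _ => ?_
    have h1 := map_zsmul (momH χ r) ((Equiv.Perm.sign σ : ℤˣ) : ℤ) (∏ i, B (σ i) i)
    have h2 : moment χ r (Equiv.Perm.sign σ • ∏ i, B (σ i) i) =
        ((Equiv.Perm.sign σ : ℤˣ) : ℤ) • moment χ r (∏ i, B (σ i) i) := h1
    rw [h2, (key σ).2, Units.smul_def, mul_smul_comm]

theorem unit_factorial {j : ℕ} (hj : j < p) : IsUnit (j.factorial : ZMod (p ^ k)) := by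
  rw [ZMod.isUnit_iff_coprime]
  refine Nat.Coprime.pow_right k ?_
  exact ((Nat.Prime.coprime_iff_not_dvd Fact.out).2 fun h => by
    have := ((Fact.out : p.Prime).dvd_factorial).1 h
    omega).symm

end

section
variable {p : ℕ} [Fact p.Prime] {ι : Type} [Fintype ι] [DecidableEq ι] (α : ι → ℕ)

theorem eval_dvd_mom {j : ℕ} (hj : j < p) {P : MvPolynomial ι ℤ_[p]} (hP : P.IsHomogeneous j) (k : ℕ)
    (e : ι → ℕ) (h : moment (kap p α k e) j (Ps p α P) = 0) :
    (p : ℤ_[p]) ^ k ∣ eval (fun i => ((p ^ (k - α i) * e i : ℕ) : ℤ_[p])) P := by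
  set N : ι → ℕ := fun i => p ^ (k - α i) * e i with hN
  have h1 : ∀ i, Lead (kap p α k e) 1 (MonoidAlgebra.of ℤ_[p] _ (gen p α i) - 1)
      ((N i : ℕ) : ZMod (p ^ k)) := by
    intro i
    have := lead_of_mem (χ := kap p α k e) (of_sub_one (R := ℤ_[p]) (gen p α i))
    have e1 : moment (kap p α k e) 1 (MonoidAlgebra.of ℤ_[p] _ (gen p α i) - 1) =
        ((N i : ℕ) : ZMod (p ^ k)) := by
      rw [moment_sub, moment_of, kap_gen, toAdd_ofAdd, pow_one,
        ← map_one (MonoidAlgebra.of ℤ_[p] (GG p α)), moment_of, map_one, toAdd_one, pow_one, sub_zero]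
    rwa [e1] at this
  have h2 : ∀ d ∈ P.support, moment (kap p α k e) j (Ps p α (monomial d (coeff d P))) =
      (j.factorial : ZMod (p ^ k)) *
        (PadicInt.toZModPow k (coeff d P) * ∏ i ∈ d.support, ((N i : ℕ) : ZMod (p ^ k)) ^ d i) := by
    intro d hd
    have hdeg : Finsupp.degree d = j := by
      have := hP (MvPolynomial.mem_support_iff.1 hd)
      exact (DFunLike.congr_fun Finsupp.degree_eq_weight_one d).trans this
    have h3 := lead_prod d.support (fun i _ => lead_pow (h1 i) (d i))
    have h4 : ∑ i ∈ d.support, d i * 1 = j := by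
      simp only [mul_one]; exact hdeg
    rw [h4] at h3
    have h5 : Ps p α (monomial d (coeff d P)) = coeff d P •
        ∏ i ∈ d.support, (MonoidAlgebra.of ℤ_[p] _ (gen p α i) - 1) ^ d i := by
      rw [Ps, aeval_monomial, Algebra.smul_def]
      rfl
    rw [h5, moment_smul, h3.2]
    ring
  have h3 : moment (kap p α k e) j (Ps p α P) = (j.factorial : ZMod (p ^ k)) *
      PadicInt.toZModPow k (eval (fun i => ((N i : ℕ) : ℤ_[p])) P) := by
    conv_lhs => rw [← MvPolynomial.support_sum_monomial_coeff P, map_sum, moment_sum]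
    rw [Finset.sum_congr rfl h2, ← Finset.mul_sum, MvPolynomial.eval_eq, map_sum]
    congr 1
    refine Finset.sum_congr rfl fun d _ => ?_
    rw [map_mul, map_prod]
    congr 1
    refine Finset.prod_congr rfl fun i _ => ?_
    rw [map_pow, map_natCast]
  rw [h3] at h
  rw [← zmodPow_zero_iff]
  exact ((unit_factorial hj).mul_right_eq_zero).1 h

theorem det_pi_mom {s : ℕ} (hs : s ≤ p) (x : MonoidAlgebra ℤ_[p] (GG p α))
    (h : ∀ (k : ℕ) (f : GG p α →* Multiplicative (ZMod (p ^ k))), ∀ j < s, moment f j x = 0) :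
    x ∈ augIdeal ℤ_[p] (GG p α) ^ s := by
  suffices H : ∀ j ≤ s, x ∈ augIdeal ℤ_[p] (GG p α) ^ j from H s le_rfl
  intro j
  induction j with
  | zero => intro _; simp
  | succ j ih =>
    intro hjs
    have hx := ih (by omega)
    rcases Nat.eq_zero_or_pos j with hj0 | hj0
    · subst hj0
      have h1 : aug ℤ_[p] (GG p α) x = 0 := by
        rw [← PadicInt.ext_of_toZModPow]
        intro k
        rw [← moment_aug (1 : GG p α →* Multiplicative (ZMod (p ^ k))), map_zero]
        exact h k 1 0 (by omega)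
      rw [zero_add, pow_one]
      exact h1
    have hjp : j < p := by omega
    obtain ⟨P, hP, rfl⟩ := exists_poly α hx
    set f := homogeneousComponent j P with hf
    have hfh : f.IsHomogeneous j := homogeneousComponent_isHomogeneous j P
    have hfd : f.totalDegree < p := lt_of_le_of_lt hfh.totalDegree_le hjp
    have hPf : P - f ∈ idealOfVars ι ℤ_[p] ^ (j + 1) := by
      rw [MvPolynomial.mem_pow_idealOfVars_iff']
      intro d hd
      rw [MvPolynomial.coeff_sub, hf, MvPolynomial.coeff_homogeneousComponent]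
      by_cases h1 : Finsupp.degree d = j
      · rw [if_pos h1, sub_self]
      · rw [if_neg h1, sub_zero]
        exact (MvPolynomial.mem_pow_idealOfVars_iff' _ _).1 hP d (by omega)
    have hdiff : Ps p α (P - f) ∈ augIdeal ℤ_[p] (GG p α) ^ (j + 1) := Ps_mem α hPf
    have hval : ∀ (k : ℕ) (e : ι → ℕ),
        (p : ℤ_[p]) ^ k ∣ eval (fun i => ((p ^ (k - α i) * e i : ℕ) : ℤ_[p])) f := by
      intro k e
      refine eval_dvd_mom α hjp hfh k e ?_
      have h1 := h k (kap p α k e) j (by omega)
      have h2 := moment_zero (kap p α k e) hdiff j (by omega)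
      have h3 : Ps p α f = Ps p α P - Ps p α (P - f) := by
        rw [← map_sub, sub_sub_cancel]
      rw [h3, moment_sub, h1, h2, sub_zero]
    have hmon : ∀ β ∈ f.support, Ps p α (monomial β (coeff β f)) ∈
        augIdeal ℤ_[p] (GG p α) ^ (j + 1) := by
      intro β hβ
      have hdeg : Finsupp.degree β = j := by
        have := hfh (MvPolynomial.mem_support_iff.1 hβ)
        exact (DFunLike.congr_fun Finsupp.degree_eq_weight_one β).trans this
      have hne : β.support.Nonempty := by
        rw [Finsupp.support_nonempty_iff]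
        rintro rfl
        rw [map_zero] at hdeg
        omega
      obtain ⟨i, hi, hmin⟩ := Finset.exists_min_image β.support α hne
      have hd := coeff_dvd_scaled (α i) f hfd (fun i' => p ^ (α i - α i')) (hval (α i)) β
        (fun i' hi' => by
          have := hmin i' hi'
          show p ^ (α i - α i') = 1
          rw [Nat.sub_eq_zero_of_le this, pow_zero])
      obtain ⟨c, hc⟩ := hd
      have hb : 1 ≤ β i := Nat.one_le_iff_ne_zero.2 (Finsupp.mem_support_iff.1 hi)
      have hsplit : β = (β - Finsupp.single i 1) + Finsupp.single i 1 := by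
        refine (tsub_add_cancel_of_le ?_).symm
        rwa [Finsupp.single_le_iff]
      have hm : monomial β (coeff β f) = monomial (β - Finsupp.single i 1) c *
          (C ((p : ℤ_[p]) ^ α i) * X i) := by
        rw [hc]
        conv_lhs => rw [hsplit]
        rw [X, C_mul_monomial, monomial_mul, mul_one, mul_comm c]
      rw [hm, map_mul]
      have h1 : Ps p α (monomial (β - Finsupp.single i 1) c) ∈
          augIdeal ℤ_[p] (GG p α) ^ (j - 1) := by
        refine Ps_mem α ?_
        rw [MvPolynomial.mem_pow_idealOfVars_iff']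
        intro d hd
        rw [MvPolynomial.coeff_monomial, if_neg]
        rintro rfl
        have h2 : Finsupp.degree β = Finsupp.degree (β - Finsupp.single i 1) + 1 := by
          conv_lhs => rw [hsplit]
          rw [map_add, Finsupp.degree_single]
        omega
      have h2 : Ps p α (C ((p : ℤ_[p]) ^ α i) * X i) ∈ augIdeal ℤ_[p] (GG p α) ^ 2 := by
        have e1 : Ps p α (C ((p : ℤ_[p]) ^ α i) * X i) =
            (p : ℤ_[p]) ^ α i • (MonoidAlgebra.of ℤ_[p] (GG p α) (gen p α i) - 1) := by
          rw [← MvPolynomial.smul_eq_C_mul, map_smul, Ps_X]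
        rw [e1]
        exact pow_smul_gen α i
      have h3 := Ideal.mul_mem_mul h1 h2
      rw [← pow_add] at h3
      exact Ideal.pow_le_pow_right (by omega) h3
    have hfm : Ps p α f ∈ augIdeal ℤ_[p] (GG p α) ^ (j + 1) := by
      rw [← MvPolynomial.support_sum_monomial_coeff f, map_sum]
      exact sum_mem hmon
    have h1 : Ps p α P = Ps p α (P - f) + Ps p α f := by
      rw [← map_add, sub_add_cancel]
    rw [h1]
    exact add_mem hdiff hfm

end

/-- **Detection by moments.** -/
theorem detect_mom {p : ℕ} [Fact p.Prime] {G : Type} [CommGroup G] [Finite G] (hG : IsPGroup p G)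
    {s : ℕ} (hs : s ≤ p) (x : MonoidAlgebra ℤ_[p] G)
    (h : ∀ (k : ℕ) (f : G →* Multiplicative (ZMod (p ^ k))), ∀ j < s, moment f j x = 0) :
    x ∈ augIdeal ℤ_[p] G ^ s := by
  classical
  obtain ⟨ι, hι, n, hn, ⟨E⟩⟩ := CommGroup.equiv_prod_multiplicative_zmod_of_finite G
  have h1 : ∀ i, ∃ a, n i = p ^ a := by
    intro i
    obtain ⟨a, ha⟩ := (IsPGroup.iff_orderOf.1 hG) (E.symm (Pi.mulSingle i (Multiplicative.ofAdd 1)))
    refine ⟨a, ?_⟩
    have e := orderOf_injective (MonoidHom.mulSingle (fun i => Multiplicative (ZMod (n i))) i)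
      (fun a b hab => by simpa using congrFun hab i) (Multiplicative.ofAdd (1 : ZMod (n i)))
    rw [MonoidHom.mulSingle_apply] at e
    rw [← ha, MulEquiv.orderOf_eq, e, orderOf_ofAdd_eq_addOrderOf, ZMod.addOrderOf_one]
  choose α hα using h1
  obtain rfl : n = fun i => p ^ α i := funext hα
  have h2 : push (E : G →* GG p α) x ∈ augIdeal ℤ_[p] (GG p α) ^ s := by
    refine det_pi_mom α hs _ fun k f j hj => ?_
    rw [moment_push]
    exact h k _ j hj
  have h3 := push_mem (E.symm : GG p α →* G) h2
  rw [push_push] at h3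
  have h4 : (E.symm : GG p α →* G).comp (E : G →* GG p α) = MonoidHom.id G := by
    ext g
    simp
  rwa [h4, push_id] at h3

end Pool.Agent.Q5.MT
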