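import Mathlib

/-!
# Polynomials of degree less than `p` with values divisible by a power of `p`
-/

set_option autoImplicit false

namespace Pool.Agent.Q5.MT

open MvPolynomial

section
variable {p : ℕ} [Fact p.Prime] {ι : Type} [Finite ι]

theorem zmod_zero_iff (x : ℤ_[p]) : PadicInt.toZMod x = 0 ↔ (p : ℤ_[p]) ∣ x := by
  rw [← RingHom.mem_ker, PadicInt.ker_toZMod, PadicInt.maximalIdeal_eq_span_p,
    Ideal.mem_span_singleton]

theorem zmodPow_zero_iff (k : ℕ) (x : ℤ_[p]) : PadicInt.toZModPow k x = 0 ↔ (p : ℤ_[p]) ^ k ∣ x := by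
  rw [← RingHom.mem_ker, PadicInt.ker_toZModPow, Ideal.mem_span_singleton]

theorem coeff_dvd_one (f : MvPolynomial ι ℤ_[p]) (hf : f.totalDegree < p)
    (h : ∀ e : ι → ℕ, (p : ℤ_[p]) ∣ eval (fun i => (e i : ℤ_[p])) f) (β : ι →₀ ℕ) :
    (p : ℤ_[p]) ∣ coeff β f := by
  have key : MvPolynomial.map (PadicInt.toZMod (p := p)) f = 0 := by
    apply MvPolynomial.eq_zero_of_eval_eq_zero
    · intro v
      have h1 := h fun i => (v i).val
      rw [← zmod_zero_iff] at h1
      have h2 : eval v (MvPolynomial.map (PadicInt.toZMod (p := p)) f) =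
          PadicInt.toZMod (eval (fun i => (((v i).val : ℕ) : ℤ_[p])) f) := by
        rw [MvPolynomial.eval_map, MvPolynomial.eval₂_eq, MvPolynomial.eval_eq, map_sum]
        refine Finset.sum_congr rfl fun d _ => ?_
        rw [map_mul, map_prod]
        congr 1
        refine Finset.prod_congr rfl fun i _ => ?_
        rw [map_pow, map_natCast, ZMod.natCast_zmod_val]
      rw [h2, h1]
    · rw [MvPolynomial.mem_restrictDegree]
      intro s hs i
      rw [ZMod.card]
      have h1 : s ∈ f.support := MvPolynomial.support_map_subset _ _ hs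
      have h2 : s i ≤ s.sum fun _ e => e := by
        by_cases h0 : s i = 0
        · rw [h0]; exact Nat.zero_le _
        · exact Finset.single_le_sum (f := fun j => s j) (fun _ _ => Nat.zero_le _)
            (Finsupp.mem_support_iff.2 h0)
      have h3 := MvPolynomial.le_totalDegree h1
      omega
  have h1 := congrArg (coeff β) key
  rw [MvPolynomial.coeff_map, MvPolynomial.coeff_zero] at h1
  exact (zmod_zero_iff _).1 h1

theorem coeff_dvd (k : ℕ) (f : MvPolynomial ι ℤ_[p]) (hf : f.totalDegree < p)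
    (h : ∀ e : ι → ℕ, (p : ℤ_[p]) ^ k ∣ eval (fun i => (e i : ℤ_[p])) f) (β : ι →₀ ℕ) :
    (p : ℤ_[p]) ^ k ∣ coeff β f := by
  induction k generalizing β with
  | zero => simp
  | succ k ih =>
    have hp0 : (p : ℤ_[p]) ≠ 0 := by
      exact_mod_cast (Fact.out : p.Prime).ne_zero
    have h1 := ih fun e => (pow_dvd_pow _ (Nat.le_succ k)).trans (h e)
    rw [← MvPolynomial.C_dvd_iff_dvd_coeff] at h1
    obtain ⟨g, rfl⟩ := h1
    by_cases hg : g = 0
    · simp [hg]
    have hdeg : g.totalDegree < p := by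
      rw [MvPolynomial.totalDegree_mul_of_isDomain _ hg, MvPolynomial.totalDegree_C, zero_add] at hf
      · exact hf
      · simpa using fun h => absurd h (by exact_mod_cast (Fact.out : p.Prime).ne_zero)
    have h2 : ∀ e : ι → ℕ, (p : ℤ_[p]) ∣ eval (fun i => (e i : ℤ_[p])) g := by
      intro e
      have := h e
      rw [map_mul, MvPolynomial.eval_C, pow_succ] at this
      exact (mul_dvd_mul_iff_left (pow_ne_zero k hp0)).1 this
    rw [MvPolynomial.coeff_C_mul, pow_succ]
    exact mul_dvd_mul_left _ (coeff_dvd_one g hdeg h2 β)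

/-- the same for the polynomial with scaled variables -/
theorem coeff_dvd_scaled (k : ℕ) (f : MvPolynomial ι ℤ_[p]) (hf : f.totalDegree < p) (w : ι → ℕ)
    (h : ∀ e : ι → ℕ, (p : ℤ_[p]) ^ k ∣ eval (fun i => ((w i * e i : ℕ) : ℤ_[p])) f) (β : ι →₀ ℕ)
    (hβ : ∀ i ∈ β.support, w i = 1) : (p : ℤ_[p]) ^ k ∣ coeff β f := by
  classical
  by_cases hs : β ∈ f.support
  swap
  · rw [MvPolynomial.notMem_support_iff.1 hs]; exact dvd_zero _
  set F : MvPolynomial ι ℤ_[p] :=
    ∑ d ∈ f.support, monomial d (coeff d f * ∏ i ∈ d.support, ((w i : ℕ) : ℤ_[p]) ^ d i) with hF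
  have hFdeg : F.totalDegree < p := by
    refine lt_of_le_of_lt (MvPolynomial.totalDegree_finsetSum_le fun d hd => ?_) hf
    exact (MvPolynomial.totalDegree_monomial_le _ _).trans (MvPolynomial.le_totalDegree hd)
  have hFe : ∀ e : ι → ℕ, eval (fun i => (e i : ℤ_[p])) F =
      eval (fun i => ((w i * e i : ℕ) : ℤ_[p])) f := by
    intro e
    rw [hF, map_sum, MvPolynomial.eval_eq]
    refine Finset.sum_congr rfl fun d _ => ?_
    rw [MvPolynomial.eval_monomial, Finsupp.prod, mul_assoc, ← Finset.prod_mul_distrib]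
    congr 1
    refine Finset.prod_congr rfl fun i _ => ?_
    push_cast
    ring
  have h1 := coeff_dvd k F hFdeg (fun e => by rw [hFe]; exact h e) β
  rw [hF, MvPolynomial.coeff_sum] at h1
  simp only [MvPolynomial.coeff_monomial] at h1
  rw [Finset.sum_ite_eq' f.support β, if_pos hs] at h1
  have h2 : ∏ i ∈ β.support, ((w i : ℕ) : ℤ_[p]) ^ β i = 1 := by
    refine Finset.prod_eq_one fun i hi => ?_
    rw [hβ i hi, Nat.cast_one, one_pow]
  rwa [h2, mul_one] at h1

end

/-- a homogeneous polynomial at `X u_i` -/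
theorem hom_eval {A ι : Type} [CommRing A] (f : MvPolynomial ι A) {j : ℕ} (hf : f.IsHomogeneous j)
    (u : ι → Polynomial A)
    (h : Polynomial.X ^ (j + 1) ∣ eval₂ Polynomial.C (fun i => Polynomial.X * u i) f) :
    eval (fun i => (u i).coeff 0) f = 0 := by
  have h1 : eval₂ Polynomial.C (fun i => Polynomial.X * u i) f =
      Polynomial.X ^ j * eval₂ Polynomial.C u f := by
    rw [MvPolynomial.eval₂_eq, MvPolynomial.eval₂_eq, Finset.mul_sum]
    refine Finset.sum_congr rfl fun d hd => ?_
    have h2 : d.degree = j := by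
      have := hf (MvPolynomial.mem_support_iff.1 hd)
      exact (DFunLike.congr_fun Finsupp.degree_eq_weight_one d).trans this
    simp only [mul_pow, Finset.prod_mul_distrib, Finset.prod_pow_eq_pow_sum]
    have h3 : ∑ i ∈ d.support, d i = j := h2
    rw [h3]
    ring
  rw [h1, pow_succ, mul_comm _ Polynomial.X] at h
  have h2 : (Polynomial.X : Polynomial A) ∣ eval₂ Polynomial.C u f := by
    rw [mul_comm Polynomial.X] at h
    obtain ⟨g, hg⟩ := h
    refine ⟨g, ?_⟩
    rw [mul_assoc] at hg
    have hreg : IsLeftRegular ((Polynomial.X : Polynomial A) ^ j) :=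
      (Polynomial.monic_X_pow j).isRegular.left
    exact hreg hg
  rw [Polynomial.X_dvd_iff] at h2
  have h3 : (eval₂ Polynomial.C u f).coeff 0 = eval (fun i => (u i).coeff 0) f := by
    have h4 : ∀ q : Polynomial A, q.coeff 0 = Polynomial.constantCoeff q := fun _ => rfl
    rw [MvPolynomial.eval₂_eq, MvPolynomial.eval_eq, h4, map_sum]
    refine Finset.sum_congr rfl fun d _ => ?_
    rw [map_mul, map_prod]
    congr 1
    · exact Polynomial.coeff_C_zero
    · refine Finset.prod_congr rfl fun i _ => ?_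
      rw [map_pow]; rfl
  rw [← h3]
  exact h2

end Pool.Agent.Q5.MT
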