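import Pool.Agent.Q5.MT.Aug
import Pool.Agent.Q5.MT.Poly

/-!
# The group ring of a cyclic group and truncated polynomials
-/

set_option autoImplicit false

namespace Pool.Agent.Q5.MT

open Polynomial

theorem dvd_choose {p : ℕ} (hp : p.Prime) (k : ℕ) {t : ℕ} (h0 : 0 < t) (ht : t < p) :
    p ^ k ∣ (p ^ k).choose t := by
  obtain ⟨n, rfl⟩ := Nat.exists_eq_succ_of_ne_zero h0.ne'
  obtain ⟨N, hN⟩ := Nat.exists_eq_succ_of_ne_zero (pow_pos hp.pos k).ne'
  have h1 : N.succ * N.choose n = N.succ.choose n.succ * n.succ := Nat.add_one_mul_choose_eq N n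
  rw [← hN] at h1
  have h2 : p ^ k ∣ (p ^ k).choose n.succ * n.succ := ⟨_, h1.symm⟩
  have h3 : Nat.Coprime (p ^ k) n.succ :=
    Nat.Coprime.pow_left k ((Nat.Prime.coprime_iff_not_dvd hp).2 fun h =>
      absurd (Nat.le_of_dvd h0 h) (by omega))
  exact h3.dvd_of_dvd_mul_right h2

section
variable (p : ℕ) [Fact p.Prime] (k j : ℕ)

/-- the ideal `(X^(j+1))` -/
noncomputable def QQ : Ideal (ZMod (p ^ k))[X] := Ideal.span {X ^ (j + 1)}

theorem one_add_pow {j : ℕ} (hj : j < p) :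
    (Ideal.Quotient.mk (QQ p k j) (1 + X)) ^ (p ^ k) = 1 := by
  have e : ((1 : (ZMod (p ^ k))[X]) + X) ^ (p ^ k) =
      ∑ t ∈ Finset.range (p ^ k), X ^ (t + 1) * (((p ^ k).choose (t + 1) : ℕ) : (ZMod (p ^ k))[X]) + 1 := by
    rw [add_comm, add_pow, Finset.sum_range_succ']
    simp
  rw [← map_pow, ← map_one (Ideal.Quotient.mk (QQ p k j)), Ideal.Quotient.eq, QQ,
    Ideal.mem_span_singleton, e, add_sub_cancel_right]
  refine Finset.dvd_sum fun t _ => ?_
  by_cases h : t + 1 < p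
  · have h1 := dvd_choose (Fact.out : p.Prime) k (Nat.succ_pos t) h
    have h2 : (((p ^ k).choose (t + 1) : ℕ) : (ZMod (p ^ k))[X]) = 0 := by
      have : (((p ^ k).choose (t + 1) : ℕ) : ZMod (p ^ k)) = 0 :=
        (ZMod.natCast_eq_zero_iff _ _).2 h1
      rw [← Polynomial.C_eq_natCast, this, map_zero]
    rw [h2, mul_zero]
    exact dvd_zero _
  · exact Dvd.dvd.mul_right (pow_dvd_pow _ (by omega)) _

theorem exists_psi {j : ℕ} (hj : j < p) :
    ∃ ψ : MonoidAlgebra ℤ_[p] (Multiplicative (ZMod (p ^ k))) →+* (ZMod (p ^ k))[X] ⧸ QQ p k j,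
      (∀ n : ℕ, ψ (MonoidAlgebra.of _ _ (Multiplicative.ofAdd (n : ZMod (p ^ k)))) =
        Ideal.Quotient.mk _ ((1 + X) ^ n)) ∧
      ∀ c x, ψ (c • x) = Ideal.Quotient.mk _ (C (PadicInt.toZModPow k c)) * ψ x := by
  have hne : p ^ k ≠ 0 := (pow_pos (Fact.out : p.Prime).pos k).ne'
  set u : ((ZMod (p ^ k))[X] ⧸ QQ p k j)ˣ := Units.ofPowEqOne _ (p ^ k) (one_add_pow p k hj) hne
    with hu
  have hu1 : u ^ (p ^ k) = 1 := Units.pow_ofPowEqOne _ _
  set h : ZMod (p ^ k) →+ Additive ((ZMod (p ^ k))[X] ⧸ QQ p k j)ˣ :=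
    ZMod.lift (p ^ k) ⟨zmultiplesHom _ (Additive.ofMul u), by
      rw [zmultiplesHom_apply, natCast_zsmul, ← ofMul_pow, hu1, ofMul_one]⟩ with hh
  have hn : ∀ n : ℕ, h (n : ZMod (p ^ k)) = Additive.ofMul (u ^ n) := by
    intro n
    have := ZMod.lift_coe (p ^ k) ⟨zmultiplesHom _ (Additive.ofMul u), by
      rw [zmultiplesHom_apply, natCast_zsmul, ← ofMul_pow, hu1, ofMul_one]⟩ (n : ℤ)
    rw [Int.cast_natCast] at this
    rw [hh, this]
    show zmultiplesHom _ (Additive.ofMul u) (n : ℤ) = _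
    rw [zmultiplesHom_apply, natCast_zsmul, ofMul_pow]
  set g : Multiplicative (ZMod (p ^ k)) →* (ZMod (p ^ k))[X] ⧸ QQ p k j :=
    (Units.coeHom _).comp (AddMonoidHom.toMultiplicativeLeft h) with hg
  refine ⟨MonoidAlgebra.liftNCRingHom ((Ideal.Quotient.mk (QQ p k j)).comp
    ((C : ZMod (p ^ k) →+* _).comp (PadicInt.toZModPow k))) g (fun _ _ => Commute.all _ _), ?_, ?_⟩
  · intro n
    have h1 : g (Multiplicative.ofAdd (n : ZMod (p ^ k))) = Ideal.Quotient.mk _ ((1 + X) ^ n) := by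
      show ((Additive.toMul (h (n : ZMod (p ^ k))) : ((ZMod (p ^ k))[X] ⧸ QQ p k j)ˣ) :
        (ZMod (p ^ k))[X] ⧸ QQ p k j) = _
      rw [hn, toMul_ofMul, Units.val_pow_eq_pow_val, map_pow]
      rfl
    rw [← h1]
    show MonoidAlgebra.liftNC _ _ (MonoidAlgebra.single _ 1) = _
    rw [MonoidAlgebra.liftNC_single]
    simp
  · intro c x
    rw [Algebra.smul_def, map_mul]
    congr 1
    show MonoidAlgebra.liftNC _ _ (MonoidAlgebra.single 1 c) = _
    rw [MonoidAlgebra.liftNC_single]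
    simp

variable {p k j}

theorem psi_aug {ψ : MonoidAlgebra ℤ_[p] (Multiplicative (ZMod (p ^ k))) →+* (ZMod (p ^ k))[X] ⧸ QQ p k j}
    (h1 : ∀ n : ℕ, ψ (MonoidAlgebra.of _ _ (Multiplicative.ofAdd (n : ZMod (p ^ k)))) =
        Ideal.Quotient.mk _ ((1 + X) ^ n))
    (h2 : ∀ c x, ψ (c • x) = Ideal.Quotient.mk _ (C (PadicInt.toZModPow k c)) * ψ x)
    (x : MonoidAlgebra ℤ_[p] (Multiplicative (ZMod (p ^ k)))) :
    ψ x - Ideal.Quotient.mk _ (C (PadicInt.toZModPow k (aug ℤ_[p] _ x))) ∈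
      Ideal.span {Ideal.Quotient.mk (QQ p k j) X} := by
  have hne : NeZero (p ^ k) := ⟨(pow_pos (Fact.out : p.Prime).pos k).ne'⟩
  induction x using MonoidAlgebra.induction_on with
  | of g =>
    rw [aug_of, map_one, map_one, map_one]
    obtain ⟨n, hn⟩ : ∃ n : ℕ, (n : ZMod (p ^ k)) = Multiplicative.toAdd g :=
      ⟨(Multiplicative.toAdd g).val, ZMod.natCast_zmod_val _⟩
    have : g = Multiplicative.ofAdd (n : ZMod (p ^ k)) := by rw [hn]; rfl
    rw [this, h1, ← map_one (Ideal.Quotient.mk (QQ p k j)), ← map_sub, Ideal.mem_span_singleton]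
    refine map_dvd _ ?_
    rw [Polynomial.X_dvd_iff]
    have : ((1 + X : (ZMod (p ^ k))[X]) ^ n - 1).coeff 0 = 0 := by
      rw [Polynomial.coeff_zero_eq_eval_zero]
      simp
    exact this
  | add x y hx hy =>
    have : ψ (x + y) - Ideal.Quotient.mk (QQ p k j) (C (PadicInt.toZModPow k (aug ℤ_[p] _ (x + y)))) =
        (ψ x - Ideal.Quotient.mk _ (C (PadicInt.toZModPow k (aug ℤ_[p] _ x)))) +
        (ψ y - Ideal.Quotient.mk _ (C (PadicInt.toZModPow k (aug ℤ_[p] _ y)))) := by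
      simp only [map_add]
      ring
    rw [this]
    exact add_mem hx hy
  | smul c x hx =>
    rw [h2, map_smul, smul_eq_mul, map_mul, map_mul, map_mul, ← mul_sub]
    exact Ideal.mul_mem_left _ _ hx

theorem psi_zero {ψ : MonoidAlgebra ℤ_[p] (Multiplicative (ZMod (p ^ k))) →+* (ZMod (p ^ k))[X] ⧸ QQ p k j}
    (h1 : ∀ n : ℕ, ψ (MonoidAlgebra.of _ _ (Multiplicative.ofAdd (n : ZMod (p ^ k)))) =
        Ideal.Quotient.mk _ ((1 + X) ^ n))
    (h2 : ∀ c x, ψ (c • x) = Ideal.Quotient.mk _ (C (PadicInt.toZModPow k c)) * ψ x)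
    {x : MonoidAlgebra ℤ_[p] (Multiplicative (ZMod (p ^ k)))} (hx : x ∈ augIdeal ℤ_[p] _ ^ (j + 1)) :
    ψ x = 0 := by
  have h3 : Ideal.map ψ (augIdeal ℤ_[p] (Multiplicative (ZMod (p ^ k)))) ≤
      Ideal.span {Ideal.Quotient.mk (QQ p k j) X} := by
    rw [Ideal.map_le_iff_le_comap]
    intro y hy
    have := psi_aug h1 h2 y
    rw [mem_aug] at hy
    rw [hy, map_zero, map_zero, map_zero, sub_zero] at this
    exact this
  have h4 := Ideal.mem_map_of_mem ψ hx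
  rw [Ideal.map_pow] at h4
  have h5 := Ideal.pow_right_mono h3 (j + 1) h4
  rw [Ideal.span_singleton_pow, ← map_pow] at h5
  have h6 : Ideal.Quotient.mk (QQ p k j) (X ^ (j + 1)) = 0 :=
    Ideal.Quotient.eq_zero_iff_mem.2 (Ideal.mem_span_singleton_self _)
  rw [h6, Ideal.span_singleton_eq_bot.2 rfl] at h5
  exact h5

end

end Pool.Agent.Q5.MT
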